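import Pool.Agent.MP_5f72fe_nt.H96.SER1

/-! Transformation laws of the basic series. -/

namespace Pool.Agent.MP_5f72fe_nt.H96

open Pool.Agent.MP_5f72fe_nt.H3
open Complex Filter Topology
open scoped Real PowerSeries

theorem regroup {ι : Type} {f : ι → ℂ} {a : ℂ} (hf : HasSum f a) (φ : ι → ℕ) (S : ℕ → Finset ι)
    (g : ℕ → ℂ) (h1 : ∀ n, ∀ i ∈ S n, φ i = n ∧ f i = g n) (h2 : ∀ i, i ∉ S (φ i) → f i = 0) :
    HasSum (fun n => ((S n).card : ℂ) * g n) a := by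
  have e : (fun n => ((S n).card : ℂ) * g n) = fun n => ∑' b : φ ⁻¹' {n}, f b := by
    funext n
    rw [tsum_subtype (φ ⁻¹' {n}) f, tsum_eq_sum (s := S n), Finset.sum_congr rfl (g := fun _ => g n),
      Finset.sum_const, nsmul_eq_mul]
    · intro i hi
      rw [Set.indicator_of_mem (show i ∈ φ ⁻¹' {n} from (h1 n i hi).1), (h1 n i hi).2]
    · intro i hi
      by_cases hm : i ∈ φ ⁻¹' {n}
      · have hn : φ i = n := hm
        rw [Set.indicator_of_mem hm]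
        exact h2 i (by rwa [hn])
      · exact Set.indicator_of_notMem hm f
  rw [e]
  exact hf.tsum_fiberwise φ

/-- The terms of the theta series. -/
noncomputable def tt (μ : ℕ) (τ : ℂ) (b : ℤ) : ℂ :=
  if b % 2 = μ then (1 : ℂ) * E (b ^ 2 * τ / (4 * (1 : ℕ)) + b * 0) else 0

theorem tt_norm (hT : RowTH) (μ : ℕ) {τ : ℂ} (hτ : 0 < τ.im) :
    Summable fun b => ‖tt μ τ b‖ := by
  have := (hT 1 (fun _ => 1) odd_one (fun _ => rfl) τ 0 hτ 0 (by norm_num)).1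
  refine Summable.of_nonneg_of_le (fun _ => norm_nonneg _) (fun b => ?_) this
  unfold tt
  split_ifs
  · exact le_rfl
  · rw [norm_zero]; exact norm_nonneg _

theorem le_sq (r : ℤ) : -r ^ 2 ≤ r ∧ r ≤ r ^ 2 := by
  constructor
  · have := Int.le_self_sq (-r); nlinarith
  · exact Int.le_self_sq r

theorem hasSum_T (hT : RowTH) (μ : ℕ) {τ : ℂ} (hτ : 0 < τ.im) :
    HasSum (fun n : ℕ => cz (Tm μ) n * E (n * τ / (12 : ℕ))) (∑' b, tt μ τ b) := by
  have := regroup (tt_norm hT μ hτ).of_norm.hasSum (fun r => (3 * r ^ 2).toNat)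
    (fun n => (Finset.Icc (-(n : ℤ)) n).filter fun r : ℤ => 3 * r ^ 2 = n ∧ r % 2 = μ)
    (fun n => E (n * τ / (12 : ℕ))) ?_ ?_
  · simpa only [cz, Tm, PowerSeries.coeff_mk, Int.cast_natCast] using this
  · intro n r hr
    obtain ⟨-, h1, h2⟩ := Finset.mem_filter.1 hr
    refine ⟨by rw [h1, Int.toNat_natCast], ?_⟩
    have h3 : (n : ℂ) = 3 * r ^ 2 := by exact_mod_cast h1.symm
    rw [tt, if_pos h2, one_mul, h3]
    congr 1
    push_cast
    ring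
  · intro r hr
    refine if_neg fun h2 => hr ?_
    have h0 : (((3 * r ^ 2).toNat : ℕ) : ℤ) = 3 * r ^ 2 := Int.toNat_of_nonneg (by positivity)
    have := le_sq r
    have := sq_nonneg r
    refine Finset.mem_filter.2 ⟨Finset.mem_Icc.2 ?_, h0.symm, h2⟩
    rw [h0]
    constructor <;> linarith

theorem sr_T (hT : RowTH) (μ : ℕ) {τ : ℂ} (hτ : 0 < τ.im) : sr (Tm μ) τ = ∑' b, tt μ τ b :=
  (hasSum_T hT μ hτ).tsum_eq

theorem im_third {τ : ℂ} (hτ : 0 < τ.im) : 0 < (τ / 3).im := by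
  rw [Complex.div_ofNat_im]; linarith

theorem im_three {τ : ℂ} (hτ : 0 < τ.im) : 0 < (3 * τ).im := by
  simp only [Complex.mul_im, Complex.re_ofNat, Complex.im_ofNat]; linarith

theorem im_inv {τ : ℂ} (hτ : 0 < τ.im) : 0 < (-1 / τ).im := by
  have h0 : τ ≠ 0 := by rintro rfl; simp at hτ
  rw [neg_div, one_div, Complex.neg_im, Complex.inv_im, neg_div, neg_neg]
  exact div_pos hτ (Complex.normSq_pos.2 h0)

theorem hasSum_hex (h : RowJH) (hT : RowTH) {τ : ℂ} (hτ : 0 < τ.im) :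
    HasSum (fun n : ℕ => ((hex n).card : ℂ) * E (n * τ / (12 : ℕ)))
      (sr (Tm 0) (τ / 3) * sr (Tm 0) τ + sr (Tm 1) (τ / 3) * sr (Tm 1) τ) := by
  have h3 := im_third hτ
  have key : ∀ μ, HasSum (fun v : ℤ × ℤ => tt μ (τ / 3) v.1 * tt μ τ v.2)
      (sr (Tm μ) (τ / 3) * sr (Tm μ) τ) := by
    intro μ
    rw [sr_T hT μ hτ, sr_T hT μ h3]
    exact (tt_norm hT μ h3).of_norm.hasSum.mul (tt_norm hT μ hτ).of_norm.hasSum
      (summable_mul_of_summable_norm (tt_norm hT μ h3) (tt_norm hT μ hτ))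
  refine regroup ((key 0).add (key 1)) (fun v => (v.1 ^ 2 + 3 * v.2 ^ 2).toNat) hex
    (fun n => E (n * τ / (12 : ℕ))) ?_ ?_
  · rintro n ⟨y, b⟩ hv
    obtain ⟨-, h1, h2⟩ := Finset.mem_filter.1 hv
    dsimp only at h1 h2 ⊢
    refine ⟨by rw [h1, Int.toNat_natCast], ?_⟩
    have h4 : (n : ℂ) = y ^ 2 + 3 * b ^ 2 := by exact_mod_cast h1.symm
    have e : (1 : ℂ) * E (y ^ 2 * (τ / 3) / (4 * (1 : ℕ)) + y * 0) *
        (1 * E (b ^ 2 * τ / (4 * (1 : ℕ)) + b * 0)) = E (n * τ / (12 : ℕ)) := by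
      rw [one_mul, one_mul, ← h.add, h4]
      congr 1
      push_cast
      ring
    unfold tt
    rcases Int.emod_two_eq_zero_or_one y with hy | hy
    · rw [if_pos (by omega), if_pos (by omega), if_neg (by omega), zero_mul, add_zero, e]
    · rw [if_neg (by omega), zero_mul, zero_add, if_pos (by omega), if_pos (by omega), e]
  · rintro ⟨y, b⟩ hv
    have h0 : (((y ^ 2 + 3 * b ^ 2).toNat : ℕ) : ℤ) = y ^ 2 + 3 * b ^ 2 :=
      Int.toNat_of_nonneg (by positivity)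
    have hne : y % 2 ≠ b % 2 := by
      intro h2
      have := le_sq y
      have := le_sq b
      have := sq_nonneg y
      have := sq_nonneg b
      refine hv (Finset.mem_filter.2 ⟨Finset.mem_product.2
        ⟨Finset.mem_Icc.2 ?_, Finset.mem_Icc.2 ?_⟩, h0.symm, h2⟩) <;> dsimp only <;> rw [h0] <;>
        constructor <;> linarith
    dsimp only
    unfold tt
    rcases Int.emod_two_eq_zero_or_one y with hy | hy
    · rw [if_neg (c := b % 2 = ((0 : ℕ) : ℤ)) (by omega), if_neg (c := y % 2 = ((1 : ℕ) : ℤ))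
        (by omega), mul_zero, zero_mul, add_zero]
    · rw [if_neg (c := y % 2 = ((0 : ℕ) : ℤ)) (by omega), if_neg (c := b % 2 = ((1 : ℕ) : ℤ))
        (by omega), zero_mul, mul_zero, add_zero]

theorem hasSum_A (h : RowJH) (hT : RowTH) {τ : ℂ} (hτ : 0 < τ.im) :
    HasSum (fun n : ℕ => cz Aa n * E (n * τ / (12 : ℕ)))
      (sr (Tm 0) τ * sr (Tm 0) (3 * τ) + sr (Tm 1) τ * sr (Tm 1) (3 * τ)) := by
  have h1 := hasSum_hex h hT (im_three hτ)
  rw [mul_div_cancel_left₀ τ three_ne_zero] at h1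
  refine (Function.Injective.hasSum_iff (g := fun m : ℕ => 3 * m)
    (fun _ _ e => Nat.eq_of_mul_eq_mul_left (by norm_num) e) fun n hn => ?_).1 ?_
  · have : ¬ 3 ∣ n := fun ⟨m, hm⟩ => hn ⟨m, hm.symm⟩
    simp [cz, Aa, this]
  · have e : ((fun n : ℕ => cz Aa n * E (n * τ / (12 : ℕ))) ∘ fun m : ℕ => 3 * m) =
        fun n : ℕ => ((hex n).card : ℂ) * E (n * (3 * τ) / (12 : ℕ)) := by
      funext m
      have e1 : cz Aa (3 * m) = ((hex m).card : ℂ) := by simp [cz, Aa]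
      rw [Function.comp_apply, e1]
      congr 2
      push_cast
      ring
    rw [e]
    exact h1

theorem hasSum_H (h : RowJH) (hT : RowTH) (hI : RowINT) {τ : ℂ} (hτ : 0 < τ.im) :
    HasSum (fun n : ℕ => cz (Aa + 6 * Kk) n * E (n * τ / (12 : ℕ)))
      (sr (Tm 0) (τ / 3) * sr (Tm 0) τ + sr (Tm 1) (τ / 3) * sr (Tm 1) τ) := by
  have := hasSum_hex h hT hτ
  simpa only [cz, ← hI.hexK, Int.cast_natCast] using this

theorem sm_hs (h : RowJH) {F : ℤ⟦X⟧} {a : ℂ → ℂ}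
    (hs : ∀ τ : ℂ, 0 < τ.im → HasSum (fun n : ℕ => cz F n * E (n * τ / (12 : ℕ))) (a τ)) :
    F ∈ smRing :=
  sm_of h (M := 12) (by norm_num) fun τ hτ => summable_norm_iff.2 (hs τ hτ).summable

theorem sm_cancel {m : ℕ} (hm : m ≠ 0) {F : ℤ⟦X⟧} (hF : (m : ℤ⟦X⟧) * F ∈ smRing) :
    F ∈ smRing := by
  intro r h0 h1
  have e : ∀ n, ‖cz ((m : ℤ⟦X⟧) * F) n‖ * r ^ n = m * (‖cz F n‖ * r ^ n) := by
    intro n
    rw [← nsmul_eq_mul, cz, cz, map_nsmul, nsmul_eq_mul, Int.cast_mul, norm_mul, mul_assoc]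
    simp
  have := hF r h0 h1
  simp only [e] at this
  exact (summable_mul_left_iff (Nat.cast_ne_zero.2 hm)).1 this

theorem lawT (hT : RowTH) {τ : ℂ} (hτ : 0 < τ.im) {μ : ℕ} (hμ : μ < 2) :
    sr (Tm μ) (-1 / τ) = Jh τ * ((sr (Tm 0) τ + (-1) ^ μ * sr (Tm 1) τ) / (√2 : ℝ)) := by
  have h1 := (hT 1 (fun _ => 1) odd_one (fun _ => rfl) τ 0 hτ μ hμ).2
  have e : hat 1 (fun _ => 1) = fun _ => 1 := by
    funext b
    simp [hat, E]
  have e2 : E ((1 : ℕ) * 0 ^ 2 / τ) = 1 := by simp [E]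
  rw [e, e2, one_mul, zero_div] at h1
  rw [sr_T hT μ (im_inv hτ), sr_T hT 0 hτ, sr_T hT 1 hτ]
  exact h1

theorem rowBASE : OfBASE := by
  intro _ h hT hI
  have mT : ∀ μ, Tm μ ∈ smRing := fun μ => sm_hs h fun τ hτ => hasSum_T hT μ hτ
  have mA : Aa ∈ smRing := sm_hs h fun τ hτ => hasSum_A h hT hτ
  have mH : Aa + 6 * Kk ∈ smRing := sm_hs h fun τ hτ => hasSum_H h hT hI hτ
  have mK : Kk ∈ smRing := by
    refine sm_cancel (m := 6) (by norm_num) ?_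
    have := sub_mem mH mA
    rwa [add_sub_cancel_left] at this
  have mP : ∀ μ < 2, Pm μ ∈ smRing := by
    intro μ hμ
    refine sm_cancel (m := 3) (by norm_num) ?_
    rw [Nat.cast_ofNat, hI.three μ hμ]
    exact sub_mem (mul_mem (pow_mem mA 2) (mT μ)) (mul_mem (mT μ)
      (sub_mem (pow_mem (mT μ) 4) (mul_mem (ofNat_mem _ 5) (pow_mem (mT _) 4))))
  have eA : ∀ τ : ℂ, 0 < τ.im → sr Aa τ =
      sr (Tm 0) τ * sr (Tm 0) (3 * τ) + sr (Tm 1) τ * sr (Tm 1) (3 * τ) :=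
    fun τ hτ => (hasSum_A h hT hτ).tsum_eq
  have eH : ∀ τ : ℂ, 0 < τ.im → sr Aa τ + 6 * sr Kk τ =
      sr (Tm 0) (τ / 3) * sr (Tm 0) τ + sr (Tm 1) (τ / 3) * sr (Tm 1) τ := by
    intro τ hτ
    obtain ⟨φ, hφ⟩ := ring h hτ
    have h1 := hφ (⟨Aa, mA⟩ + 6 * ⟨Kk, mK⟩)
    rw [map_add, map_mul, map_ofNat, hφ, hφ] at h1
    exact h1.trans (hasSum_H h hT hI hτ).tsum_eq
  have s3 : ((√3 : ℝ) : ℂ) ^ 2 = 3 := by
    rw [← ofReal_pow, Real.sq_sqrt (by norm_num)]; norm_num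
  have s2 : ((√2 : ℝ) : ℂ) ^ 2 = 2 := by
    rw [← ofReal_pow, Real.sq_sqrt (by norm_num)]; norm_num
  have n3 : ((√3 : ℝ) : ℂ) ≠ 0 := ofReal_ne_zero.2 (by positivity)
  have n2 : ((√2 : ℝ) : ℂ) ≠ 0 := ofReal_ne_zero.2 (by positivity)
  have lA : ∀ τ : ℂ, 0 < τ.im →
      sr Aa (-1 / τ) = -I * τ * (sr Aa τ + 6 * sr Kk τ) / (√3 : ℝ) := by
    intro τ hτ
    have h0 : τ ≠ 0 := by rintro rfl; simp at hτ
    have h3 := im_third hτ
    have e : 3 * (-1 / τ) = -1 / (τ / 3) := by field_simp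
    have j := h.scale 3 (τ / 3) (by norm_num)
    rw [ofReal_ofNat, mul_div_cancel₀ τ three_ne_zero] at j
    have j2 := h.sq τ
    rw [eA _ (im_inv hτ), eH τ hτ, e, lawT hT hτ (μ := 0) (by norm_num),
      lawT hT hτ (μ := 1) (by norm_num), lawT hT h3 (μ := 0) (by norm_num),
      lawT hT h3 (μ := 1) (by norm_num), ← j2, j]
    field_simp
    rw [s2]
    ring
  refine ⟨⟨fun μ _ => mT μ, mA, mK, mP⟩, fun τ hτ μ hμ => lawT hT hτ hμ, lA, fun τ hτ => ?_,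
    fun τ hτ => ?_⟩
  · have h0 : τ ≠ 0 := by rintro rfl; simp at hτ
    have e1 := lA τ hτ
    have e2 := lA _ (im_inv hτ)
    have e : -1 / (-1 / τ) = τ := by field_simp
    rw [e] at e2
    rw [eq_div_iff n3] at e1 e2
    have e3 : sr Aa τ * (√3 : ℝ) * τ = I * (sr Aa (-1 / τ) + 6 * sr Kk (-1 / τ)) := by
      rw [e2]; field_simp
    rw [eq_div_iff (mul_ne_zero three_ne_zero n3)]
    linear_combination (I * (√3 : ℝ) / 2) * e3 - (1 / 2) * e1 - (I * sr Aa τ * τ / 2) * s3 +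
      ((√3 : ℝ) * (sr Aa (-1 / τ) + 6 * sr Kk (-1 / τ)) / 2) * I_sq
  · rw [eH _ (im_three hτ), eA τ hτ, mul_div_cancel_left₀ τ three_ne_zero]

end Pool.Agent.MP_5f72fe_nt.H96
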