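import Pool.Agent.MP_5f72fe_nt.H3.SpecC

/-! Basic facts on series in `e(τ/M)`. -/

namespace Pool.Agent.MP_5f72fe_nt.H96

open Pool.Agent.MP_5f72fe_nt.H3
open Complex Filter Topology
open scoped Real PowerSeries UpperHalfPlane

theorem E_nat (M n : ℕ) (τ : ℂ) : E (n * τ / M) = E (τ / M) ^ n := by
  unfold E
  rw [← Complex.exp_nat_mul]
  congr 1
  ring

theorem E_norm (h : RowJH) (M : ℕ) (τ : ℂ) :
    ‖E (τ / M)‖ = Real.exp (-(2 * π * (τ.im / M))) := by
  rw [h.norm, Complex.div_natCast_im]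

theorem E_lt (h : RowJH) {M : ℕ} (hM : 0 < M) {τ : ℂ} (hτ : 0 < τ.im) : ‖E (τ / M)‖ < 1 := by
  rw [E_norm h, Real.exp_lt_one_iff]
  have : (0 : ℝ) < M := Nat.cast_pos.2 hM
  have : 0 < 2 * π * (τ.im / M) := by positivity
  linarith

theorem E_surj (h : RowJH) {M : ℕ} (hM : 0 < M) (Y : ℝ) {q : ℂ} (hq : q ≠ 0)
    (hY : ‖q‖ < Real.exp (-(2 * π * (Y / M)))) : ∃ τ : ℂ, Y < τ.im ∧ E (τ / M) = q := by
  have hM' : (0 : ℝ) < M := Nat.cast_pos.2 hM
  have hM0 : (M : ℂ) ≠ 0 := Nat.cast_ne_zero.2 hM.ne'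
  have e : E (M * (log q / (2 * π * I)) / M) = q := by
    unfold E
    rw [mul_div_cancel_left₀ _ hM0, mul_div_cancel₀ _ two_pi_I_ne_zero, exp_log hq]
  refine ⟨_, ?_, e⟩
  rw [← e, E_norm h, Real.exp_lt_exp, neg_lt_neg_iff] at hY
  have := lt_of_mul_lt_mul_left hY (by positivity)
  exact (div_lt_div_iff_of_pos_right hM').1 this

theorem sm_sum {c : ℕ → ℂ} (hc : Sm c) {q : ℂ} (hq : ‖q‖ < 1) :
    Summable fun n => ‖c n * q ^ n‖ := by
  simp only [norm_mul, norm_pow]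
  exact hc _ (norm_nonneg q) hq

theorem nsum (h : RowJH) {M : ℕ} {c : ℕ → ℂ} {τ : ℂ} (hM : 0 < M) (hc : Sm c) (hτ : 0 < τ.im) :
    Summable fun n : ℕ => ‖c n * E (n * τ / M)‖ := by
  simp only [E_nat]
  exact sm_sum hc (E_lt h hM hτ)

theorem sm_of (h : RowJH) {M : ℕ} {c : ℕ → ℂ} (hM : 0 < M)
    (hs : ∀ τ : ℂ, 0 < τ.im → Summable fun n : ℕ => ‖c n * E (n * τ / M)‖) : Sm c := by
  intro r h0 h1
  have hq : ‖(((r + 1) / 2 : ℝ) : ℂ)‖ = (r + 1) / 2 := by
    rw [Complex.norm_real, Real.norm_of_nonneg (by linarith)]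
  obtain ⟨τ, hτ, e⟩ := E_surj h hM 0 (q := (((r + 1) / 2 : ℝ) : ℂ))
    (ofReal_ne_zero.2 (by linarith)) (by
      rw [hq, zero_div, mul_zero, neg_zero, Real.exp_zero]; linarith)
  have := hs τ hτ
  simp only [E_nat, e, norm_mul, norm_pow, hq] at this
  refine Summable.of_nonneg_of_le (fun n => by positivity) (fun n => ?_) this
  exact mul_le_mul_of_nonneg_left (pow_le_pow_left₀ h0 (by linarith) n) (norm_nonneg _)

theorem ps_diff {c : ℕ → ℂ} {r : ℝ} (hs : Summable fun n => ‖c n‖ * r ^ n) :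
    DifferentiableOn ℂ (fun q : ℂ => ∑' n, c n * q ^ n) (Metric.ball 0 r) := by
  refine differentiableOn_tsum_of_summable_norm hs (fun n => by fun_prop) Metric.isOpen_ball ?_
  intro n w hw
  rw [norm_mul, norm_pow]
  exact mul_le_mul_of_nonneg_left
    (pow_le_pow_left₀ (norm_nonneg _) (mem_ball_zero_iff.1 hw).le n) (norm_nonneg _)

theorem ps_at {c : ℕ → ℂ} (hc : Sm c) {q : ℂ} (hq : ‖q‖ < 1) :
    DifferentiableAt ℂ (fun q : ℂ => ∑' n, c n * q ^ n) q := by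
  have h0 := norm_nonneg q
  refine (ps_diff (hc ((‖q‖ + 1) / 2) (by linarith) (by linarith))).differentiableAt ?_
  exact Metric.isOpen_ball.mem_nhds (mem_ball_zero_iff.2 (by linarith))

theorem ps_zero (c : ℕ → ℂ) : ∑' n, c n * (0 : ℂ) ^ n = c 0 := by
  rw [tsum_eq_single 0 fun n hn => by rw [zero_pow hn, mul_zero], pow_zero, mul_one]

theorem ser_eq (M : ℕ) (c : ℕ → ℂ) :
    ser M c = (fun q : ℂ => ∑' n, c n * q ^ n) ∘ fun τ => E (τ / M) := by
  funext τ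
  simp only [ser, E_nat, Function.comp_apply]

theorem diff (h : RowJH) {M : ℕ} {c : ℕ → ℂ} (hM : 0 < M) (hc : Sm c) :
    DifferentiableOn ℂ (ser M c) {τ | 0 < τ.im} := by
  intro τ hτ
  rw [ser_eq]
  refine (DifferentiableAt.comp τ (ps_at hc (E_lt h hM hτ)) ?_).differentiableWithinAt
  unfold E
  fun_prop

theorem uniq0 {r : ℝ} (hr : 0 < r) {c : ℕ → ℂ}
    (hc : ∀ q : ℂ, q ≠ 0 → ‖q‖ < r → HasSum (fun n => c n * q ^ n) 0) : c 0 = 0 := by
  have hq : ‖((r / 2 : ℝ) : ℂ)‖ = r / 2 := by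
    rw [Complex.norm_real, Real.norm_of_nonneg (by linarith)]
  have h1 := summable_norm_iff.2
    (hc ((r / 2 : ℝ) : ℂ) (ofReal_ne_zero.2 (by linarith)) (by rw [hq]; linarith)).summable
  simp only [norm_mul, norm_pow, hq] at h1
  have h2 := ((ps_diff h1).differentiableAt
    (Metric.ball_mem_nhds 0 (half_pos hr))).continuousAt.tendsto
  rw [ps_zero] at h2
  refine tendsto_nhds_unique (h2.mono_left (nhdsWithin_le_nhds (s := {0}ᶜ))) ?_
  refine tendsto_const_nhds.congr' ?_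
  filter_upwards [self_mem_nhdsWithin, mem_nhdsWithin_of_mem_nhds (Metric.ball_mem_nhds 0 hr)]
    with q h0 hb
  exact (hc q h0 (mem_ball_zero_iff.1 hb)).tsum_eq.symm

theorem uniq1 {r : ℝ} (hr : 0 < r) (n : ℕ) : ∀ c : ℕ → ℂ,
    (∀ q : ℂ, q ≠ 0 → ‖q‖ < r → HasSum (fun n => c n * q ^ n) 0) → c n = 0 := by
  induction n with
  | zero => exact fun c hc => uniq0 hr hc
  | succ n ih =>
    intro c hc
    refine ih (fun n => c (n + 1)) fun q h0 hq => ?_
    have h1 := ((hasSum_nat_add_iff' 1).2 (hc q h0 hq)).div_const q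
    rw [Finset.sum_range_one, uniq0 hr hc, zero_mul, sub_zero, zero_div] at h1
    have e : (fun n => c (n + 1) * q ^ n) = fun n => c (n + 1) * q ^ (n + 1) / q := by
      funext m
      rw [pow_succ, ← mul_assoc, mul_div_cancel_right₀ _ h0]
    rw [e]
    exact h1

theorem uniq (h : RowJH) {M : ℕ} {c : ℕ → ℂ} {Y : ℝ} (hM : 0 < M)
    (hs : ∀ τ : ℂ, Y < τ.im → HasSum (fun n : ℕ => c n * E (n * τ / M)) 0) : c = 0 := by
  funext n
  refine uniq1 (Real.exp_pos (-(2 * π * (Y / M)))) n c fun q h0 hq => ?_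
  obtain ⟨τ, hτ, e⟩ := E_surj h hM Y h0 hq
  have := hs τ hτ
  simpa only [E_nat, e] using this

theorem coeff_mul_pow (F G : ℂ⟦X⟧) (q : ℂ) (n : ℕ) :
    ∑ kl ∈ Finset.HasAntidiagonal.antidiagonal n,
      PowerSeries.coeff kl.1 F * q ^ kl.1 * (PowerSeries.coeff kl.2 G * q ^ kl.2) =
      PowerSeries.coeff n (F * G) * q ^ n := by
  rw [PowerSeries.coeff_mul, Finset.sum_mul]
  refine Finset.sum_congr rfl fun kl hkl => ?_
  rw [← Finset.HasAntidiagonal.mem_antidiagonal.1 hkl, pow_add]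
  ring

theorem sm_mul {F G : ℂ⟦X⟧} (hF : Sm fun n => PowerSeries.coeff n F)
    (hG : Sm fun n => PowerSeries.coeff n G) : Sm fun n => PowerSeries.coeff n (F * G) := by
  intro r h0 h1
  have hq : ‖(r : ℂ)‖ = r := by rw [Complex.norm_real, Real.norm_of_nonneg h0]
  have := summable_norm_sum_mul_antidiagonal_of_summable_norm
    (sm_sum hF (q := r) (by rwa [hq])) (sm_sum hG (q := r) (by rwa [hq]))
  simpa only [coeff_mul_pow, norm_mul, norm_pow, hq] using this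

theorem ser_mul (h : RowJH) {M : ℕ} {F G : ℂ⟦X⟧} (hM : 0 < M)
    (hF : Sm fun n => PowerSeries.coeff n F) (hG : Sm fun n => PowerSeries.coeff n G) {τ : ℂ}
    (hτ : 0 < τ.im) : ser M (fun n => PowerSeries.coeff n (F * G)) τ =
      ser M (fun n => PowerSeries.coeff n F) τ * ser M (fun n => PowerSeries.coeff n G) τ := by
  simp only [ser, E_nat]
  rw [tsum_mul_tsum_eq_tsum_sum_antidiagonal_of_summable_norm (sm_sum hF (E_lt h hM hτ))
    (sm_sum hG (E_lt h hM hτ))]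
  simp only [coeff_mul_pow]

theorem cz_eq (F : ℤ⟦X⟧) :
    cz F = fun n => PowerSeries.coeff n (PowerSeries.map (Int.castRingHom ℂ) F) := by
  funext n
  rw [PowerSeries.coeff_map]
  rfl

theorem cz_add (F G : ℤ⟦X⟧) (n : ℕ) : cz (F + G) n = cz F n + cz G n := by simp [cz]

theorem cz_one {n : ℕ} (hn : n ≠ 0) : cz 1 n = 0 := by simp [cz, PowerSeries.coeff_one, hn]

/-- The integral series with radius of convergence at least one. -/
def smRing : Subring ℤ⟦X⟧ where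
  carrier := {F | Sm (cz F)}
  mul_mem' := fun {F G} hF hG => by
    change Sm (cz _) at hF hG ⊢
    rw [cz_eq] at hF hG ⊢
    rw [map_mul]
    exact sm_mul hF hG
  one_mem' := fun r _ _ => summable_of_ne_finset_zero (s := {0}) fun n hn => by
    rw [cz_one (Finset.notMem_singleton.1 hn), norm_zero, zero_mul]
  add_mem' := fun {F G} hF hG r h0 h1 => by
    refine Summable.of_nonneg_of_le (fun n => by positivity) (fun n => ?_)
      ((hF r h0 h1).add (hG r h0 h1))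
    rw [cz_add, ← add_mul]
    exact mul_le_mul_of_nonneg_right (norm_add_le _ _) (pow_nonneg h0 n)
  zero_mem' := fun r _ _ => by simp [cz]
  neg_mem' := fun {F} hF r h0 h1 => by simpa [cz] using hF r h0 h1

theorem ring (h : RowJH) {τ : ℂ} (hτ : 0 < τ.im) :
    ∃ φ : smRing →+* ℂ, ∀ F : smRing, φ F = sr F τ := by
  refine ⟨⟨⟨⟨fun F => sr F τ, ?_⟩, fun F G => ?_⟩, ?_, fun F G => ?_⟩, fun _ => rfl⟩
  · change ser 12 (cz 1) τ = 1
    rw [ser, tsum_eq_single 0 fun n hn => by rw [cz_one hn, zero_mul]]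
    simp [cz, E]
  · have hF : Sm (cz F) := F.2
    have hG : Sm (cz G) := G.2
    change ser 12 (cz (F * G)) τ = ser 12 (cz F) τ * ser 12 (cz G) τ
    rw [cz_eq] at hF hG
    rw [cz_eq, cz_eq, cz_eq, map_mul]
    exact ser_mul h (by norm_num) hF hG hτ
  · change ser 12 (cz 0) τ = 0
    simp [ser, cz]
  · change ser 12 (cz (F + G)) τ = ser 12 (cz F) τ + ser 12 (cz G) τ
    simp only [ser, cz_add, add_mul]
    exact (nsum h (by norm_num) F.2 hτ).of_norm.tsum_add (nsum h (by norm_num) G.2 hτ).of_norm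

theorem hol1 (h : RowJH) {c : ℕ → ℂ} (hc : Sm c) : Hol1 (ser 1 c) := by
  refine ⟨diff h one_pos hc, fun τ _ => ?_, ∑' n, ‖c n‖ * Real.exp (-(2 * π)) ^ n, 1,
    fun τ hτ => ?_⟩
  · have e : E ((τ + 1) / (1 : ℕ)) = E (τ / (1 : ℕ)) := by
      have := h.int 1
      rw [Int.cast_one] at this
      rw [Nat.cast_one, div_one, div_one, h.add, this, mul_one]
    simp only [ser, E_nat, e]
  · have h1 : Real.exp (-(2 * π)) < 1 := Real.exp_lt_one_iff.2 (by linarith [Real.pi_pos])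
    refine tsum_of_norm_bounded (hc _ (Real.exp_pos _).le h1).hasSum fun n => ?_
    rw [E_nat, norm_mul, norm_pow, E_norm h]
    refine mul_le_mul_of_nonneg_left (pow_le_pow_left₀ (Real.exp_pos _).le ?_ n) (norm_nonneg _)
    rw [Real.exp_le_exp, Nat.cast_one, div_one]
    nlinarith [Real.pi_pos]

theorem lim1 (h : RowJH) {c : ℕ → ℂ} (hc : Sm c) :
    Tendsto (ser 1 c) (comap Complex.im atTop) (𝓝 (c 0)) := by
  have h2 := (ps_at hc (q := 0) (by simp)).continuousAt.tendsto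
  rw [ps_zero] at h2
  rw [ser_eq]
  refine h2.comp (tendsto_zero_iff_norm_tendsto_zero.2 ?_)
  simp only [Nat.cast_one, div_one, h.norm]
  exact Real.tendsto_exp_neg_atTop_nhds_zero.comp
    (Tendsto.const_mul_atTop Real.two_pi_pos tendsto_comap)

theorem E_shift (h : RowJH) {M : ℕ} (hM : 0 < M) (r t : ℕ) (τ : ℂ) :
    E ((r + M * t : ℕ) * τ / M) * E (-(((r : ℝ) / (M : ℝ) : ℝ) * τ)) = E (t * τ / (1 : ℕ)) := by
  have hM0 : (M : ℂ) ≠ 0 := Nat.cast_ne_zero.2 hM.ne'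
  rw [← h.add]
  congr 1
  push_cast
  field_simp
  ring

theorem inj {M : ℕ} (hM : 0 < M) (r : ℕ) : Function.Injective fun t : ℕ => r + M * t :=
  fun _ _ e => Nat.eq_of_mul_eq_mul_left hM (Nat.add_left_cancel e)

theorem ser_shift (h : RowJH) {M r : ℕ} {c : ℕ → ℂ} (hM : 0 < M)
    (hs : ∀ n, c n ≠ 0 → ∃ t, n = r + M * t) (τ : ℂ) :
    ser M c τ * E (-(((r : ℝ) / (M : ℝ) : ℝ) * τ)) = ser 1 (fun t => c (r + M * t)) τ := by
  rw [ser, ← (inj hM r).tsum_eq (f := fun n : ℕ => c n * E (n * τ / M)), ← tsum_mul_right, ser]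
  · refine tsum_congr fun t => ?_
    rw [mul_assoc, E_shift h hM]
  · intro n hn
    obtain ⟨t, ht⟩ := hs n (left_ne_zero_of_mul hn)
    exact ⟨t, ht.symm⟩

theorem sm_shift (h : RowJH) {M r : ℕ} {c : ℕ → ℂ} (hM : 0 < M)
    (hs : ∀ n, c n ≠ 0 → ∃ t, n = r + M * t) : Sm c ↔ Sm fun t => c (r + M * t) := by
  have key : ∀ τ : ℂ, (Summable fun n : ℕ => ‖c n * E (n * τ / M)‖) ↔
      Summable fun t : ℕ => ‖c (r + M * t) * E (t * τ / (1 : ℕ))‖ := by
    intro τ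
    rw [← (inj hM r).summable_iff (f := fun n : ℕ => ‖c n * E (n * τ / M)‖),
      ← summable_mul_right_iff (norm_ne_zero_iff.2 (h.ne (-(((r : ℝ) / (M : ℝ) : ℝ) * τ))))]
    · refine summable_congr fun t => ?_
      rw [Function.comp_apply, ← norm_mul, mul_assoc, E_shift h hM]
    · intro n hn
      by_cases h0 : c n = 0
      · rw [h0, zero_mul, norm_zero]
      · obtain ⟨t, ht⟩ := hs n h0
        exact absurd ⟨t, ht.symm⟩ hn
  exact ⟨fun hc => sm_of h one_pos fun τ hτ => (key τ).1 (nsum h hM hc hτ),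
    fun hc => sm_of h hM fun τ hτ => (key τ).2 (nsum h one_pos hc hτ)⟩

theorem toSer1 (h : RowJH) {G : ℂ → ℂ} (hG : Hol1 G) :
    ∃ c : ℕ → ℂ, Sm c ∧ ∀ τ : ℂ, 0 < τ.im → G τ = ser 1 c τ := by
  obtain ⟨hd, hp, C, Y, hb⟩ := hG
  have e : ∀ z : ℂ, 0 < z.im → ((fun z : ℍ => G z) ∘ UpperHalfPlane.ofComplex) z = G z :=
    fun z hz => UpperHalfPlane.comp_ofComplex_of_im_pos (fun z : ℍ => G z) z hz
  have hper : Function.Periodic ((fun z : ℍ => G z) ∘ UpperHalfPlane.ofComplex) ((1 : ℝ) : ℂ) := by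
    intro z
    have hi : (z + ((1 : ℝ) : ℂ)).im = z.im := by simp
    by_cases hz : 0 < z.im
    · rw [e z hz, e _ (by rwa [hi]), ofReal_one, hp z hz]
    · exact UpperHalfPlane.comp_ofComplex_of_im_le_zero (fun z : ℍ => G z) _ _
        (by rw [hi]; exact not_lt.1 hz) (not_lt.1 hz)
  have key : ∀ τ : ℂ, 0 < τ.im → HasSum
      (fun n : ℕ => aF (fun z : ℍ => G z) n * E (n * τ / (1 : ℕ))) (G τ) := by
    intro τ hτ
    have := UpperHalfPlane.hasSum_qExpansion one_pos hper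
      (UpperHalfPlane.mdifferentiable_iff.2 (hd.congr e))
      (UpperHalfPlane.isBoundedAtImInfty_iff.2 ⟨C, Y, fun z hz => hb z hz⟩) ⟨τ, hτ⟩
    have e2 : Function.Periodic.qParam 1 τ = E (τ / (1 : ℕ)) := by
      simp [Function.Periodic.qParam, E]
    simp only [E_nat, ← e2]
    exact this
  exact ⟨_, sm_of h one_pos fun τ hτ => summable_norm_iff.2 (key τ hτ).summable,
    fun τ hτ => (key τ hτ).tsum_eq.symm⟩

theorem rowSER1 : OfSER1 := by
  intro h
  refine ⟨fun M c τ hM hc hτ => nsum h hM hc hτ, fun M c hM hc => diff h hM hc,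
    fun M c Y hM hs => uniq h hM hs,
    fun M F G hM hF hG => ⟨sm_mul hF hG, fun τ hτ => ser_mul h hM hF hG hτ⟩,
    ⟨smRing, fun _ => Iff.rfl, fun τ hτ => ring h hτ⟩, fun M r c hM hc hs => ?_,
    fun M r F hM hF => ?_⟩
  · have hc' := (sm_shift h hM hs).1 hc
    unfold Ex Ld
    rw [funext (ser_shift h hM hs)]
    exact ⟨hol1 h hc', lim1 h hc'⟩
  · obtain ⟨c, hc, hFc⟩ := toSer1 h hF
    have hs : ∀ n, Function.extend (fun t : ℕ => r + M * t) c 0 n ≠ 0 → ∃ t, n = r + M * t := by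
      intro n hn
      by_contra hne
      refine hn (Function.extend_apply' _ _ _ fun ⟨t, ht⟩ => hne ⟨t, ht.symm⟩)
    have e : (fun t => Function.extend (fun t : ℕ => r + M * t) c 0 (r + M * t)) = c :=
      funext fun t => (inj hM r).extend_apply c 0 t
    refine ⟨_, (sm_shift h hM hs).2 (by rw [e]; exact hc), hs, fun τ hτ => ?_⟩
    refine mul_right_cancel₀ (h.ne (-(((r : ℝ) / (M : ℝ) : ℝ) * τ))) ?_
    rw [ser_shift h hM hs, e]
    exact hFc τ hτ

end Pool.Agent.MP_5f72fe_nt.H96
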