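import Pool.Agent.MP_5f72fe_nt.H3.SpecC

/-! Arithmetic of the maximal order of discriminant three. -/

namespace Pool.Agent.MP_5f72fe_nt.H96

open Pool.Agent.MP_5f72fe_nt.H3

theorem qo_star (x : OO) : x * star x = (nr x : OO) ∧ star x * x = (nr x : OO) := by
  obtain ⟨a, b, c, d⟩ := x
  constructor <;> ext <;> simp [nr, -Int.cast_add, -Int.cast_sub] <;> ring

theorem qo_mul (x y : OO) : nr (x * y) = nr x * nr y := by
  obtain ⟨a, b, c, d⟩ := x
  obtain ⟨e, f, g, h⟩ := y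
  simp only [nr, QuaternionAlgebra.mk_mul_mk]
  ring

theorem qo_nonneg (x : OO) : 0 ≤ nr x := by
  unfold nr
  nlinarith [sq_nonneg (2 * x.re - x.imI), sq_nonneg x.imI, sq_nonneg (2 * x.imJ - x.imK),
    sq_nonneg x.imK]

theorem qo_pos (x : OO) (hx : x ≠ 0) : 0 < nr x := by
  by_contra h
  have h1 := sq_nonneg (2 * x.re - x.imI)
  have h2 := sq_nonneg x.imI
  have h3 := sq_nonneg (2 * x.imJ - x.imK)
  have h4 := sq_nonneg x.imK
  have h5 : (2 * x.re - x.imI) ^ 2 + 3 * x.imI ^ 2 + (2 * x.imJ - x.imK) ^ 2 + 3 * x.imK ^ 2 =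
      4 * nr x := by unfold nr; ring
  have e1 : 2 * x.re - x.imI = 0 := pow_eq_zero_iff (two_ne_zero) |>.1 (by linarith)
  have e2 : x.imI = 0 := pow_eq_zero_iff (two_ne_zero) |>.1 (by linarith)
  have e3 : 2 * x.imJ - x.imK = 0 := pow_eq_zero_iff (two_ne_zero) |>.1 (by linarith)
  have e4 : x.imK = 0 := pow_eq_zero_iff (two_ne_zero) |>.1 (by linarith)
  apply hx
  ext <;> simp <;> omega

theorem qo_zero : nr 0 = 0 := by simp [nr]

theorem qo_noZero (x y : OO) (h : x * y = 0) : x = 0 ∨ y = 0 := by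
  by_contra hne
  rw [not_or] at hne
  have := mul_pos (qo_pos x hne.1) (qo_pos y hne.2)
  rw [← qo_mul, h, qo_zero] at this
  exact lt_irrefl _ this

theorem qo_round (e : ℤ) {M : ℤ} (hM : 0 < M) : ∃ m, (e - 2 * M * m) ^ 2 ≤ M ^ 2 := by
  refine ⟨(e + M) / (2 * M), ?_⟩
  have h1 := Int.emod_nonneg (e + M) (b := 2 * M) (by omega)
  have h2 := Int.emod_lt_of_pos (e + M) (b := 2 * M) (by omega)
  have h3 := Int.emod_add_mul_ediv (e + M) (2 * M)
  exact sq_le_sq' (by linarith) (by linarith)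

theorem qo_plane (e f : ℤ) {N : ℤ} (hN : 0 < N) : ∃ m l,
    16 * ((e - N * m) ^ 2 - (e - N * m) * (f - N * l) + (f - N * l) ^ 2) ≤ 7 * N ^ 2 := by
  obtain ⟨l, hl⟩ := qo_round (2 * f) hN
  obtain ⟨m, hm⟩ := qo_round (2 * e - (f - N * l)) hN
  exact ⟨m, l, by nlinarith⟩

theorem qo_div (x α : OO) (hα : α ≠ 0) : ∃ y, nr (x - y * α) < nr α := by
  have hN := qo_pos α hα
  obtain ⟨m, l, h1⟩ := qo_plane (x * star α).re (x * star α).imI hN
  obtain ⟨m', l', h2⟩ := qo_plane (x * star α).imJ (x * star α).imK hN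
  refine ⟨⟨m, l, m', l'⟩, ?_⟩
  have e : (x - ⟨m, l, m', l'⟩ * α) * star α = x * star α - ⟨m, l, m', l'⟩ * (nr α : OO) := by
    rw [sub_mul, mul_assoc, (qo_star α).1]
  have e2 : nr (star α) = nr α := by simp [nr]; ring
  have e3 := qo_mul (x - ⟨m, l, m', l'⟩ * α) (star α)
  rw [e, e2] at e3
  generalize x * star α = β at *
  have e4 : nr (β - ⟨m, l, m', l'⟩ * (nr α : OO)) =
      (β.re - nr α * m) ^ 2 - (β.re - nr α * m) * (β.imI - nr α * l) + (β.imI - nr α * l) ^ 2 +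
      ((β.imJ - nr α * m') ^ 2 - (β.imJ - nr α * m') * (β.imK - nr α * l') +
        (β.imK - nr α * l') ^ 2) := by
    generalize nr α = N
    simp [nr]
    ring
  refine lt_of_mul_lt_mul_right (a := nr α) ?_ hN.le
  nlinarith [mul_pos hN hN]

theorem qo_prin (I : Ideal OO) : ∃ α : OO, ∀ x, x ∈ I ↔ ∃ y, x = y * α := by
  by_cases h : ∃ x ∈ I, x ≠ 0
  · obtain ⟨N, ⟨α, hα, h0, rfl⟩, hmin⟩ := Int.exists_least_of_bdd
      (P := fun N => ∃ x ∈ I, x ≠ 0 ∧ nr x = N)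
      ⟨0, fun _ ⟨x, _, _, e⟩ => e ▸ qo_nonneg x⟩ (let ⟨x, hx, h0⟩ := h; ⟨_, x, hx, h0, rfl⟩)
    refine ⟨α, fun x => ⟨fun hx => ?_, fun ⟨y, e⟩ => e ▸ I.mul_mem_left y hα⟩⟩
    obtain ⟨y, hy⟩ := qo_div x α h0
    refine ⟨y, sub_eq_zero.1 (by_contra fun hne => ?_)⟩
    exact absurd (hmin _ ⟨_, I.sub_mem hx (I.mul_mem_left y hα), hne, rfl⟩) (not_le.2 hy)
  · refine ⟨0, fun x => ⟨fun hx => ⟨0, ?_⟩, fun ⟨y, e⟩ => ?_⟩⟩
    · rw [mul_zero]
      exact by_contra fun hne => h ⟨x, hx, hne⟩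
    · rw [e, mul_zero]
      exact I.zero_mem

theorem qo_embSq (v : V) :
    emb v * emb v = -((v.2.1 ^ 2 + 3 * v.1 ^ 2 + 3 * v.2.2 ^ 2 : ℤ) : OO) := by
  generalize hN : v.2.1 ^ 2 + 3 * v.1 ^ 2 + 3 * v.2.2 ^ 2 = N
  ext <;> simp [emb]
  · linarith
  all_goals ring

theorem qo_two (p q r s : ℤ) :
    2 * (⟨p, q, r, s⟩ : OO) - 1 = ⟨2 * p - 1, 2 * q, 2 * r, 2 * s⟩ := by
  ext <;> simp [two_mul]

theorem mem_Rp {n : ℕ} {v : V} :
    v ∈ Rp n ↔ v.2.1 ^ 2 + 3 * v.1 ^ 2 + 3 * v.2.2 ^ 2 = n ∧ v.2.1 % 2 = v.2.2 % 2 := by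
  refine ⟨fun h => (Finset.mem_filter.1 h).2, fun h => Finset.mem_filter.2 ⟨?_, h⟩⟩
  have key : ∀ r : ℤ, r ^ 2 ≤ n → r ∈ Finset.Icc (-(n : ℤ)) n := by
    intro r hr
    have h1 := Int.le_self_sq (-r)
    have h2 := Int.le_self_sq r
    rw [neg_sq] at h1
    exact Finset.mem_Icc.2 ⟨by linarith, by linarith⟩
  have := sq_nonneg v.1
  have := sq_nonneg v.2.1
  have := sq_nonneg v.2.2
  exact Finset.mem_product.2 ⟨key _ (by linarith [h.1]),
    Finset.mem_product.2 ⟨key _ (by linarith [h.1]), key _ (by linarith [h.1])⟩⟩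

theorem qo_half (n : ℕ) (x : OO) (hn : n % 4 = 3) :
    (2 * x - 1) * (2 * x - 1) = -(n : OO) ↔ ∃ v ∈ Rp n, emb v = 2 * x - 1 := by
  constructor
  · intro h
    obtain ⟨p, q, r, s⟩ := x
    rw [qo_two] at h ⊢
    have h1 := congrArg QuaternionAlgebra.re h
    have h2 := congrArg QuaternionAlgebra.imI h
    have h3 := congrArg QuaternionAlgebra.imJ h
    have h4 := congrArg QuaternionAlgebra.imK h
    simp at h1 h2 h3 h4
    have hq : 2 * p - 1 - q = 0 := by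
      by_contra hne
      have e2 : q = 0 := (mul_eq_zero.1 (show q * (2 * p - 1 - q) = 0 by linarith)).resolve_right hne
      have e3 : r = 0 := (mul_eq_zero.1 (show r * (2 * p - 1 - q) = 0 by linarith)).resolve_right hne
      have e4 : s = 0 := (mul_eq_zero.1 (show s * (2 * p - 1 - q) = 0 by linarith)).resolve_right hne
      subst e2 e3 e4
      have : (0 : ℤ) < n := by omega
      nlinarith [sq_nonneg (2 * p - 1)]
    obtain rfl : q = 2 * p - 1 := by linarith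
    refine ⟨(2 * p - 1, 2 * r - s, s), mem_Rp.2 ⟨?_, ?_⟩, ?_⟩
    · dsimp only
      linarith
    · dsimp only
      omega
    · ext <;> simp [emb]
  · rintro ⟨v, hv, e⟩
    rw [← e, qo_embSq, (mem_Rp.1 hv).1, Int.cast_natCast]

theorem qo_half' (n : ℕ) (v : V) (hn : n % 4 = 3) (hv : v ∈ Rp n) :
    ∃ x : OO, emb v = 2 * x - 1 := by
  obtain ⟨a, y, b⟩ := v
  obtain ⟨h1, h2⟩ := mem_Rp.1 hv
  dsimp only at h1 h2
  obtain ⟨r, hr⟩ : ∃ r, y = 2 * r - b := ⟨(y + b) / 2, by omega⟩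
  subst hr
  obtain ⟨p, rfl | rfl⟩ := Int.even_or_odd' a
  · have : (n : ℤ) = 4 * (r ^ 2 - r * b + b ^ 2 + 3 * p ^ 2) := by linarith
    omega
  · refine ⟨⟨p + 1, 2 * p + 1, r, b⟩, ?_⟩
    rw [qo_two]
    ext <;> simp [emb]
    ring

theorem qo_cent (n : ℕ) (v : V) (x α : OO) (hs : Squarefree n) (hv : v ∈ Rp n)
    (he : emb v = 2 * x - 1) (hc : α * x = x * α) : ∃ a b : ℤ, α = a + b * x := by
  obtain ⟨a, y, b⟩ := v
  obtain ⟨p, q, r, s⟩ := x
  obtain ⟨t, u, w, z⟩ := α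
  obtain ⟨h1, -⟩ := mem_Rp.1 hv
  rw [qo_two] at he
  have e2 := congrArg QuaternionAlgebra.imI he
  have e3 := congrArg QuaternionAlgebra.imJ he
  have e4 := congrArg QuaternionAlgebra.imK he
  simp only [emb] at h1 e2 e3 e4
  obtain rfl : a = q := by omega
  obtain rfl : b = s := by omega
  obtain rfl : y = 2 * r - b := by omega
  have c2 := congrArg QuaternionAlgebra.imI hc
  have c3 := congrArg QuaternionAlgebra.imJ hc
  have c4 := congrArg QuaternionAlgebra.imK hc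
  simp only [QuaternionAlgebra.mk_mul_mk] at c2 c3 c4
  have m1 : w * b = r * z := by linarith
  have m2 : a * z = u * b := by linarith
  have m3 : u * r = a * w := by linarith
  have hg : Int.gcd a (Int.gcd r b) = 1 := by
    obtain ⟨a', ha⟩ := Int.gcd_dvd_left a (Int.gcd r b)
    obtain ⟨r', hr⟩ := (Int.gcd_dvd_right a (Int.gcd r b)).trans (Int.gcd_dvd_left r b)
    obtain ⟨b', hb⟩ := (Int.gcd_dvd_right a (Int.gcd r b)).trans (Int.gcd_dvd_right r b)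
    generalize Int.gcd a (Int.gcd r b) = g at *
    refine Nat.isUnit_iff.1 (hs g (Int.natCast_dvd_natCast.1
      ⟨(2 * r' - b') ^ 2 + 3 * a' ^ 2 + 3 * b' ^ 2, ?_⟩))
    rw [← h1, ha, hr, hb]
    push_cast
    ring
  have g1 := Int.gcd_eq_gcd_ab a (Int.gcd r b)
  have g2 := Int.gcd_eq_gcd_ab r b
  rw [hg] at g1
  generalize Int.gcdA a (Int.gcd r b) = l1 at g1
  generalize Int.gcdB a (Int.gcd r b) = l2 at g1
  rw [g2] at g1
  generalize Int.gcdA r b = l3 at g1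
  generalize Int.gcdB r b = l4 at g1
  refine ⟨t - (u * l1 + (w * l3 + z * l4) * l2) * p, u * l1 + (w * l3 + z * l4) * l2, ?_⟩
  generalize hk : u * l1 + (w * l3 + z * l4) * l2 = k
  generalize ht : t - k * p = t'
  push_cast at g1
  ext <;> simp
  · linarith
  · rw [← hk]; linear_combination u * g1 + l3 * l2 * m3 - l4 * l2 * m2
  · rw [← hk]; linear_combination w * g1 - l1 * m3 + l4 * l2 * m1
  · rw [← hk]; linear_combination z * g1 + l1 * m2 - l3 * l2 * m1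

theorem rowQO : RowQO :=
  ⟨qo_star, qo_mul, qo_pos, qo_noZero, qo_prin, qo_embSq, qo_half, qo_half',
    fun n v x α _ hs hv he hc => qo_cent n v x α hs hv he hc⟩

end Pool.Agent.MP_5f72fe_nt.H96
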